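import Pool.Agent.H.MP_0256c3.A

namespace Pool.Agent.Results.MP_0256c3_gt.Counter
open Set

universe u

/-- supercompact: there is a binary closed subbase. -/
def Supercompact (S : Type u) [TopologicalSpace S] : Prop :=
  ∃ 𝒮 : Set (Set S), (∀ P ∈ 𝒮, IsClosed P) ∧
    (∀ F, IsClosed F → ∃ 𝒜 : Set (Set S), (∀ A ∈ 𝒜, ∃ Q ⊆ 𝒮, Q.Finite ∧ A = ⋃₀ Q) ∧ F = ⋂₀ 𝒜) ∧
    ∀ L ⊆ 𝒮, (∀ A ∈ L, ∀ B ∈ L, (A ∩ B).Nonempty) → (⋂₀ L).Nonempty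

theorem result : ∃ (Γ : Type) (K : Set (Γ → ℝ)), K.Nonempty ∧ IsCompact K ∧
    (∀ f ∈ K, ∀ ε > 0, {γ | ε ≤ |f γ|}.Finite) ∧
    ∀ (S : Type u) [TopologicalSpace S], Supercompact S →
      ∀ π : S → K, Continuous π → ¬ Function.Surjective π :=
  ⟨_, Pool.Agent.H.MP_0256c3.K, ⟨fun _ => 0, fun _ => .inl rfl, fun _ _ _ _ => mul_zero _,
    fun _ _ _ _ => mul_zero _⟩, Pool.Agent.H.MP_0256c3.Kc, fun _ hf _ h => Pool.Agent.H.MP_0256c3.Kf hf h,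
    fun _ _ ⟨_, h1, h2, h3⟩ => Pool.Agent.H.MP_0256c3.main h1 h2 h3⟩

end Pool.Agent.Results.MP_0256c3_gt.Counter
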